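import Pool.Agent.T9h23.Ab.A2
import Pool.Agent.T9h23.Ru.R8

/-! # Fibres over all coordinates but two, pairs with an exceptional value, two sums -/

set_option autoImplicit false

namespace T9h23.Ac

open Finset T9h23.Ru T9h23.Ab T9h23.Pe
open scoped Classical

/-- one coordinate fixed -/
theorem card_upd {d : ℕ} (B : Fin d → ℕ) (i₀ : Fin d) :
    (gbox (Function.update B i₀ 0)).card * (2 * B i₀ + 1) = (gbox B).card := by
  rw [card_gbox, card_gbox, ← Finset.mul_prod_erase univ _ (mem_univ i₀),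
      ← Finset.mul_prod_erase univ (fun i => 2 * B i + 1) (mem_univ i₀), Function.update_self]
  have h3 : ∏ x ∈ univ.erase i₀, (2 * Function.update B i₀ 0 x + 1) = ∏ x ∈ univ.erase i₀, (2 * B x + 1) := by
    refine Finset.prod_congr rfl fun i hi => ?_
    rw [Function.update_of_ne (Finset.ne_of_mem_erase hi)]
  rw [h3]
  ring

/-- fibres over all coordinates but two -/
theorem fibre2 {d : ℕ} (B : Fin d → ℕ) (S : Finset (Fin d → ℤ)) (hS : S ⊆ gbox B) (i₀ i₁ : Fin d) (h01 : i₁ ≠ i₀)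
    (M : ℕ) (h : ∀ a ∈ gbox B, (S.filter (fun b => ∀ i, i ≠ i₀ → i ≠ i₁ → b i = a i)).card ≤ M) :
    S.card * ((2 * B i₀ + 1) * (2 * B i₁ + 1)) ≤ M * (gbox B).card := by
  have h1 : S.card ≤ M * (gbox (Function.update (Function.update B i₀ 0) i₁ 0)).card := by
    refine Finset.card_le_mul_card_image_of_maps_to
      (f := fun a => Function.update (Function.update a i₀ 0) i₁ 0) ?_ M ?_
    · intro a ha
      have h2 := mem_gbox.1 (hS ha)
      rw [mem_gbox]
      intro i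
      by_cases hi1 : i = i₁
      · subst hi1
        simp
      · rw [Function.update_of_ne hi1, Function.update_of_ne hi1]
        by_cases hi : i = i₀
        · subst hi
          simp
        · rw [Function.update_of_ne hi, Function.update_of_ne hi]
          exact h2 i
    · intro b hb
      rw [mem_gbox] at hb
      have hb' : b ∈ gbox B := by
        rw [mem_gbox]
        intro i
        have h3 := hb i
        by_cases hi1 : i = i₁
        · subst hi1
          rw [Function.update_self] at h3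
          have : (0 : ℤ) ≤ B i := by positivity
          push_cast at h3
          linarith
        · rw [Function.update_of_ne hi1] at h3
          by_cases hi : i = i₀
          · subst hi
            rw [Function.update_self] at h3
            have : (0 : ℤ) ≤ B i := by positivity
            push_cast at h3
            linarith
          · rwa [Function.update_of_ne hi] at h3
      refine le_trans (Finset.card_le_card ?_) (h b hb')
      intro a ha
      rw [mem_filter] at ha ⊢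
      refine ⟨ha.1, fun i hi hi1 => ?_⟩
      rw [← ha.2, Function.update_of_ne hi1, Function.update_of_ne hi]
  have h2 := card_upd (Function.update B i₀ 0) i₁
  rw [Function.update_of_ne h01] at h2
  have h3 := card_upd B i₀
  calc S.card * ((2 * B i₀ + 1) * (2 * B i₁ + 1))
      ≤ M * (gbox (Function.update (Function.update B i₀ 0) i₁ 0)).card * ((2 * B i₀ + 1) * (2 * B i₁ + 1)) := by
        gcongr
    _ = M * ((gbox (Function.update (Function.update B i₀ 0) i₁ 0)).card * (2 * B i₁ + 1) * (2 * B i₀ + 1)) := by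
        ring
    _ = M * (gbox B).card := by rw [h2, h3]

/-- **Pairs with an exceptional value**, in a rectangle. -/
theorem pairs (A : ℕ) (C : ℝ) (hC : 1 ≤ C)
    (hloc : ∀ W T : ℝ, 1 ≤ W → 0 ≤ T → ∀ S : Finset ℤ,
      (∀ w ∈ S, W ≤ w ∧ (w : ℝ) ≤ W + T ∧ Exc A w) → (S.card : ℝ) ≤ C * (T / W ^ (1 / 4 : ℝ)) + 1)
    (P Q : ℕ) (hPQ : P ≤ Q) (n w : ℤ) (hn : n ≠ 0) (L : ℝ) (hL : 1 ≤ L) (hw : L + (P * |(n : ℝ)| + Q) ≤ w)
    (S : Finset (ℤ × ℤ)) (hS : ∀ c ∈ S, |c.1| ≤ P ∧ |c.2| ≤ Q ∧ Exc A (w + (c.1 * n + c.2))) :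
    (S.card : ℝ) ≤ (C * (2 * (P * |(n : ℝ)| + Q) / L ^ (1 / 4 : ℝ)) + 1) * ((2 * Q + 1) / |(n : ℝ)| + 1) := by
  obtain ⟨V, hV⟩ : ∃ V : Finset ℤ, V = S.image (fun c => c.1 * n + c.2) := ⟨_, rfl⟩
  obtain ⟨T, hT⟩ : ∃ T : ℝ, T = P * |(n : ℝ)| + Q := ⟨_, rfl⟩
  have hT0 : 0 ≤ T := by rw [hT]; positivity
  rw [← hT] at hw ⊢
  have hVc : (V.card : ℝ) ≤ C * (2 * T / L ^ (1 / 4 : ℝ)) + 1 := by
    have h2 := hloc ((w : ℝ) - T) (2 * T) (by linarith) (by positivity) (V.image (fun v => w + v)) (by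
      intro y hy
      rw [mem_image] at hy
      obtain ⟨v, hv, rfl⟩ := hy
      rw [hV, mem_image] at hv
      obtain ⟨c, hc, rfl⟩ := hv
      obtain ⟨h3, h4, h5⟩ := hS c hc
      have h3' : |(c.1 : ℝ)| ≤ P := by exact_mod_cast h3
      have h4' : |(c.2 : ℝ)| ≤ Q := by exact_mod_cast h4
      have h6 : |(c.1 : ℝ) * n + c.2| ≤ T := by
        refine (abs_add_le _ _).trans ?_
        rw [abs_mul, hT]
        gcongr
      obtain ⟨h7, h8⟩ := abs_le.1 h6
      push_cast
      refine ⟨by linarith, by linarith, h5⟩)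
    rw [Finset.card_image_of_injective _ (add_right_injective w)] at h2
    refine h2.trans ?_
    have h3 : L ^ (1 / 4 : ℝ) ≤ ((w : ℝ) - T) ^ (1 / 4 : ℝ) :=
      Real.rpow_le_rpow (by linarith) (by linarith) (by norm_num)
    have h5 : 0 < L ^ (1 / 4 : ℝ) := Real.rpow_pos_of_pos (by linarith) _
    have h6 : 2 * T / ((w : ℝ) - T) ^ (1 / 4 : ℝ) ≤ 2 * T / L ^ (1 / 4 : ℝ) := by gcongr
    gcongr
  have h1 := Finset.card_eq_sum_card_fiberwise (f := fun c : ℤ × ℤ => c.1 * n + c.2) (s := S) (t := V)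
    (by
      intro c hc
      rw [Finset.mem_coe] at hc ⊢
      rw [hV]
      exact mem_image_of_mem _ hc)
  have h2 : ∀ v ∈ V, ((((S.filter (fun c => c.1 * n + c.2 = v)).card : ℕ)) : ℝ) ≤ (2 * Q + 1) / |(n : ℝ)| + 1 := by
    intro v _
    refine le_trans ?_ (fib Q n v hn)
    have : (S.filter (fun c => c.1 * n + c.2 = v)).card ≤ ((Pe.sq Q).filter (fun c => c.1 * n + c.2 = v)).card := by
      apply Finset.card_le_card
      apply Finset.filter_subset_filter
      intro c hc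
      obtain ⟨h3, h4, _⟩ := hS c hc
      rw [mem_sq]
      refine ⟨h3.trans (by exact_mod_cast hPQ), h4⟩
    exact_mod_cast this
  have h3 : (S.card : ℝ) = ∑ v ∈ V, ((((S.filter (fun c => c.1 * n + c.2 = v)).card : ℕ)) : ℝ) := by
    rw [h1]; push_cast; rfl
  rw [h3]
  refine (Finset.sum_le_card_nsmul _ _ _ h2).trans ?_
  rw [nsmul_eq_mul]
  have h4 : (0 : ℝ) ≤ (2 * Q + 1) / |(n : ℝ)| + 1 := by positivity
  gcongr

/-- the sum of `m ^ (-1/2)` -/
theorem sum_half (M : ℕ) : ∑ m ∈ Icc 1 M, (Real.sqrt m)⁻¹ ≤ 2 * Real.sqrt M := by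
  induction M with
  | zero => simp
  | succ M ih =>
    rw [Finset.sum_Icc_succ_top (by omega)]
    obtain ⟨x, hx⟩ : ∃ x : ℝ, x = Real.sqrt (M : ℝ) := ⟨_, rfl⟩
    obtain ⟨y, hy⟩ : ∃ y : ℝ, y = Real.sqrt ((M + 1 : ℕ) : ℝ) := ⟨_, rfl⟩
    rw [← hx] at ih
    rw [← hy]
    have hx0 : 0 ≤ x := by rw [hx]; exact Real.sqrt_nonneg _
    have hy0 : 0 < y := by rw [hy]; exact Real.sqrt_pos.2 (by positivity)
    have hx2 : x ^ 2 = M := by rw [hx]; exact Real.sq_sqrt (Nat.cast_nonneg M)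
    have hy2 : y ^ 2 = M + 1 := by rw [hy, Real.sq_sqrt (by positivity)]; push_cast; ring
    have hxy : x ≤ y := by
      apply le_of_sq_le_sq _ hy0.le
      rw [hx2, hy2]
      linarith
    have h1 : y⁻¹ ≤ 2 * (y - x) := by
      rw [inv_le_iff_one_le_mul₀ hy0]
      nlinarith
    linarith

/-- the sum of `m ^ (-3/2)` -/
theorem sum_three_half (a : ℕ) (ha : 1 ≤ a) (b : ℕ) (hab : a ≤ b) :
    ∑ m ∈ Icc a b, (Real.sqrt m ^ 3)⁻¹ ≤ 3 * (Real.sqrt a)⁻¹ - 2 * (Real.sqrt b)⁻¹ := by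
  induction b, hab using Nat.le_induction with
  | base =>
    rw [Finset.Icc_self, Finset.sum_singleton]
    obtain ⟨x, hx⟩ : ∃ x : ℝ, x = Real.sqrt (a : ℝ) := ⟨_, rfl⟩
    rw [← hx]
    have hx1 : 1 ≤ x := by
      rw [hx]
      exact Real.one_le_sqrt.2 (by exact_mod_cast ha)
    have h1 : (x ^ 3)⁻¹ ≤ x⁻¹ := by
      rw [inv_le_inv₀ (by positivity) (by positivity)]
      exact le_self_pow₀ hx1 (by norm_num)
    linarith
  | succ b hab ih =>
    rw [Finset.sum_Icc_succ_top (by omega)]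
    obtain ⟨x, hx⟩ : ∃ x : ℝ, x = Real.sqrt (b : ℝ) := ⟨_, rfl⟩
    obtain ⟨y, hy⟩ : ∃ y : ℝ, y = Real.sqrt ((b + 1 : ℕ) : ℝ) := ⟨_, rfl⟩
    rw [← hx] at ih
    rw [← hy]
    have hb1 : (1 : ℝ) ≤ b := by exact_mod_cast ha.trans hab
    have hx0 : 0 < x := by rw [hx]; exact Real.sqrt_pos.2 (by linarith)
    have hy0 : 0 < y := by rw [hy]; exact Real.sqrt_pos.2 (by positivity)
    have hx2 : x ^ 2 = b := by rw [hx]; exact Real.sq_sqrt (Nat.cast_nonneg b)
    have hy2 : y ^ 2 = b + 1 := by rw [hy, Real.sq_sqrt (by positivity)]; push_cast; ring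
    have hxy : x ≤ y := by
      apply le_of_sq_le_sq _ hy0.le
      rw [hx2, hy2]
      linarith
    have h1 : (y ^ 3)⁻¹ ≤ 2 * x⁻¹ - 2 * y⁻¹ := by
      have e1 : 2 * x⁻¹ - 2 * y⁻¹ = 2 * (y - x) / (x * y) := by field_simp
      rw [e1, le_div_iff₀ (by positivity), inv_mul_le_iff₀ (by positivity)]
      have h2 : 1 = (y - x) * (y + x) := by nlinarith
      have h3 : x * y ≤ x * y * ((y - x) * (y + x)) := by rw [← h2, mul_one]
      refine h3.trans ?_
      have h4 : x * (y + x) ≤ 2 * y ^ 2 := by nlinarith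
      have h5 : 0 ≤ y * (y - x) := by
        apply mul_nonneg hy0.le
        linarith
      calc x * y * ((y - x) * (y + x)) = (y * (y - x)) * (x * (y + x)) := by ring
        _ ≤ (y * (y - x)) * (2 * y ^ 2) := by gcongr
        _ = y ^ 3 * (2 * (y - x)) := by ring
    linarith

end T9h23.Ac
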