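import Pool.Agent.T9h23.Ac.B1

/-! # The proportion of the polynomials of a weighted box with an exceptional value at `n` -/

set_option autoImplicit false

namespace T9h23.Ac

open Finset T9h23.Ru T9h23.Ab T9h23.Pe
open scoped Classical

/-- lower bound for the values -/
theorem mv_low (r : ℕ) (hr : 1 ≤ r) (h : ℕ) (hh : 1 ≤ h) (a : Fin (2 * r) → ℤ) (ha : InBox h a) (n : ℤ)
    (hn : 8 * r * h ≤ |n|) : 3 * |n| ^ (2 * r) ≤ 4 * mv a n := by
  have hr1 : (1 : ℤ) ≤ r := by exact_mod_cast hr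
  have hh1 : (1 : ℤ) ≤ h := by exact_mod_cast hh
  have hhn : (h : ℤ) ≤ |n| := by nlinarith
  have h1 := ev_le a ha n |n| le_rfl hhn
  have h2 : n ^ (2 * r) = |n| ^ (2 * r) := by rw [pow_mul, pow_mul, sq_abs]
  rw [mv_ev, h2]
  have h3 := (abs_le.1 h1).1
  have h4 : |n| ^ (2 * r) = |n| * |n| ^ (2 * r - 1) := by
    rw [← pow_succ']; congr 1; omega
  have h5 : 0 ≤ |n| ^ (2 * r - 1) := by positivity
  have h6 : 4 * ((2 * r : ℕ) : ℤ) * h * |n| ^ (2 * r - 1) ≤ |n| * |n| ^ (2 * r - 1) := by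
    apply mul_le_mul_of_nonneg_right _ h5
    push_cast
    linarith
  rw [h4] at *
  linarith

/-- two coordinates changed -/
theorem mv_two {d : ℕ} (i₀ i₁ : Fin d) (h0 : (i₀ : ℕ) = 0) (h1 : (i₁ : ℕ) = 1) (a b : Fin d → ℤ)
    (hab : ∀ i, i ≠ i₀ → i ≠ i₁ → b i = a i) (n : ℤ) :
    mv b n = mv a n - (a i₁ * n + a i₀) + (b i₁ * n + b i₀) := by
  have h01 : i₁ ≠ i₀ := by
    intro h
    rw [h] at h1
    omega
  unfold mv
  have h2 : ∀ i ∈ (univ : Finset (Fin d)), b i * n ^ (i : ℕ) = a i * n ^ (i : ℕ) +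
      ((if i = i₀ then b i₀ - a i₀ else 0) + (if i = i₁ then (b i₁ - a i₁) * n else 0)) := by
    intro i _
    by_cases hi : i = i₀
    · subst hi
      rw [if_pos rfl, if_neg (fun h => h01 h.symm), h0, pow_zero]
      ring
    · by_cases hi1 : i = i₁
      · subst hi1
        rw [if_neg hi, if_pos rfl, h1, pow_one]
        ring
      · rw [if_neg hi, if_neg hi1, hab i hi hi1]
        ring
  rw [Finset.sum_congr rfl h2, Finset.sum_add_distrib, Finset.sum_add_distrib, Finset.sum_ite_eq',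
    Finset.sum_ite_eq', if_pos (mem_univ _), if_pos (mem_univ _)]
  ring

/-- **The proportion at one argument.** -/
theorem mid_n (r : ℕ) (hr : 3 ≤ r) (A : ℕ) : ∃ C : ℝ, 1 ≤ C ∧ ∀ h m : ℕ, 1 ≤ h → 8 * r * h ≤ m → ∀ n : ℤ, |n| = m →
    (((wbox (2 * r) h).filter (fun a => Exc A (mv a n))).card : ℝ) ≤ (wbox (2 * r) h).card *
      (C * ((Real.sqrt m ^ 3)⁻¹ * (Real.sqrt h ^ (r - 3))⁻¹ + (Real.sqrt m)⁻¹ *
        (((h : ℝ) ^ (2 * r) * Real.sqrt h ^ (r - 3))⁻¹ + ((h : ℝ) ^ (2 * r - 1) * Real.sqrt h)⁻¹) +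
        ((h : ℝ) ^ (2 * r - 1) * (h : ℝ) ^ (2 * r))⁻¹)) := by
  obtain ⟨C, hC, hloc⟩ := local_count A
  refine ⟨6 * C, by linarith, ?_⟩
  intro h m hh hm n hn
  have hhr : (1 : ℝ) ≤ h := by exact_mod_cast hh
  have hhm' : h ≤ m := by nlinarith
  have hhm : (h : ℝ) ≤ m := by exact_mod_cast hhm'
  have hm1 : (1 : ℝ) ≤ m := hhr.trans hhm
  have hnr : |(n : ℝ)| = m := by exact_mod_cast hn
  have hn0 : n ≠ 0 := by
    rintro rfl
    rw [abs_zero] at hn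
    have : m = 0 := by exact_mod_cast hn.symm
    omega
  have h8 : 8 * (h : ℝ) ≤ m := by
    have : 8 * h ≤ m := by nlinarith
    exact_mod_cast this
  obtain ⟨P, hP⟩ : ∃ P : ℕ, P = h ^ (2 * r - 1) := ⟨_, rfl⟩
  obtain ⟨Q, hQ⟩ : ∃ Q : ℕ, Q = h ^ (2 * r) := ⟨_, rfl⟩
  have hQP : Q = P * h := by
    rw [hQ, hP, ← pow_succ]; congr 1; omega
  have hP1 : 1 ≤ P := by rw [hP]; exact Nat.one_le_pow _ _ hh
  have hPr : (1 : ℝ) ≤ P := by exact_mod_cast hP1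
  have hQ1 : 1 ≤ Q := by rw [hQ]; exact Nat.one_le_pow _ _ hh
  have hQr : (1 : ℝ) ≤ Q := by exact_mod_cast hQ1
  have hPQ : P ≤ Q := by rw [hQP]; exact Nat.le_mul_of_pos_right _ hh
  have hQPm : (Q : ℝ) ≤ P * m := by
    have : (Q : ℝ) = P * h := by rw [hQP]; push_cast; ring
    rw [this]
    gcongr
  obtain ⟨s, hs⟩ : ∃ s : ℝ, s = Real.sqrt m := ⟨_, rfl⟩
  obtain ⟨t, ht⟩ : ∃ t : ℝ, t = Real.sqrt h := ⟨_, rfl⟩
  have hs2 : s ^ 2 = m := by rw [hs]; exact Real.sq_sqrt (by linarith)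
  have ht1 : 1 ≤ t := by rw [ht]; exact Real.one_le_sqrt.2 hhr
  have hts : t ≤ s := by rw [hs, ht]; exact Real.sqrt_le_sqrt hhm
  have hs1 : 1 ≤ s := ht1.trans hts
  obtain ⟨L, hL⟩ : ∃ L : ℝ, L = (m : ℝ) ^ (2 * r) / 4 := ⟨_, rfl⟩
  have hmr : 4 ≤ (m : ℝ) ^ (2 * r) := by
    have h1 : (8 : ℝ) ≤ m := by linarith
    have h2 : (m : ℝ) ≤ (m : ℝ) ^ (2 * r) := le_self_pow₀ hm1 (by omega)
    linarith
  have hL1 : 1 ≤ L := by rw [hL]; linarith
  have hLs : s ^ r / 2 ≤ L ^ (1 / 4 : ℝ) := by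
    have h1 : (s ^ r / 2) = ((s ^ r / 2) ^ 4) ^ (1 / 4 : ℝ) := by
      rw [← Real.rpow_natCast (s ^ r / 2) 4, ← Real.rpow_mul (by positivity)]
      norm_num
    rw [h1]
    apply Real.rpow_le_rpow (by positivity) _ (by norm_num)
    rw [hL, div_pow, ← pow_mul, ← hs2, ← pow_mul]
    have h2 : 2 * (2 * r) = r * 4 := by ring
    rw [h2]
    have h3 : 0 ≤ s ^ (r * 4) := by positivity
    norm_num
    linarith
  have hP8 : 8 * ((P : ℝ) * m) ≤ (m : ℝ) ^ (2 * r) := by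
    have h1 : (m : ℝ) ^ (2 * r) = (m : ℝ) ^ (2 * r - 1) * m := by
      rw [← pow_succ]; congr 1; omega
    have h2 : (8 * (h : ℝ)) ^ (2 * r - 1) ≤ (m : ℝ) ^ (2 * r - 1) := by gcongr
    have h3 : (8 : ℝ) ≤ 8 ^ (2 * r - 1) := le_self_pow₀ (by norm_num) (by omega)
    have h4 : 8 * (P : ℝ) ≤ (8 * (h : ℝ)) ^ (2 * r - 1) := by
      rw [hP, mul_pow]
      push_cast
      gcongr
    rw [h1]
    calc 8 * ((P : ℝ) * m) = (8 * P) * m := by ring
      _ ≤ (m : ℝ) ^ (2 * r - 1) * m := by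
          gcongr
          exact h4.trans h2
  set i₀ : Fin (2 * r) := ⟨0, by omega⟩ with hi₀
  set i₁ : Fin (2 * r) := ⟨1, by omega⟩ with hi₁
  have h01 : i₁ ≠ i₀ := by
    rw [hi₀, hi₁]
    intro h
    have := congrArg Fin.val h
    simp at this
  obtain ⟨R, hR⟩ : ∃ R : ℝ, R = (C * (2 * (P * |(n : ℝ)| + Q) / L ^ (1 / 4 : ℝ)) + 1) *
      ((2 * Q + 1) / |(n : ℝ)| + 1) := ⟨_, rfl⟩
  have hR0 : 0 ≤ R := by rw [hR]; positivity
  have h1 := fibre2 (fun i : Fin (2 * r) => h ^ (2 * r - (i : ℕ)))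
    ((wbox (2 * r) h).filter (fun a => Exc A (mv a n))) (Finset.filter_subset _ _) i₀ i₁ h01 ⌊R⌋₊ (by
      intro a ha
      have hbox := mem_wbox.1 ha
      apply Nat.le_floor
      set F := ((wbox (2 * r) h).filter (fun a => Exc A (mv a n))).filter
        (fun b => ∀ i, i ≠ i₀ → i ≠ i₁ → b i = a i) with hF
      have hinj : Set.InjOn (fun b : Fin (2 * r) → ℤ => (b i₁, b i₀)) (F : Set (Fin (2 * r) → ℤ)) := by
        intro b hb c hc hbc
        rw [Finset.mem_coe, hF, mem_filter] at hb hc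
        have hbc' : (b i₁, b i₀) = (c i₁, c i₀) := hbc
        rw [Prod.mk.injEq] at hbc'
        funext i
        by_cases hi : i = i₀
        · rw [hi]; exact hbc'.2
        · by_cases hi1 : i = i₁
          · rw [hi1]; exact hbc'.1
          · rw [hb.2 i hi hi1, hc.2 i hi hi1]
      rw [← Finset.card_image_of_injOn hinj, hR]
      have ha1 : |(a i₁ : ℝ)| ≤ P := by
        have h2 := hbox i₁
        rw [hP]
        exact_mod_cast h2
      have ha0 : |(a i₀ : ℝ)| ≤ Q := by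
        have h2 := hbox i₀
        rw [hQ]
        exact_mod_cast h2
      refine pairs A C hC hloc P Q hPQ n (mv a n - (a i₁ * n + a i₀)) hn0 L hL1 ?_ _ ?_
      · have h2 := mv_low r (by omega) h hh a hbox n (by
          rw [hn]; exact_mod_cast hm)
        have h3 : 3 * (m : ℝ) ^ (2 * r) ≤ 4 * (mv a n : ℝ) := by
          rw [hn] at h2
          exact_mod_cast h2
        rw [hnr, hL]
        push_cast
        have h4 : |(a i₁ : ℝ) * n + a i₀| ≤ P * m + Q := by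
          refine (abs_add_le _ _).trans ?_
          rw [abs_mul, hnr]
          gcongr
        have h5 := (abs_le.1 h4).2
        linarith
      · intro c hc
        rw [mem_image] at hc
        obtain ⟨b, hb, rfl⟩ := hc
        rw [hF, mem_filter, mem_filter] at hb
        have hbb := mem_wbox.1 hb.1.1
        refine ⟨?_, ?_, ?_⟩
        · have h2 := hbb i₁
          rw [hP]
          exact_mod_cast h2
        · have h2 := hbb i₀
          rw [hQ]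
          exact_mod_cast h2
        · have h2 := mv_two i₀ i₁ rfl rfl a b hb.2 n
          dsimp only
          rw [← h2]
          exact hb.1.2)
  obtain ⟨S, hS⟩ : ∃ S : ℝ, S = (((wbox (2 * r) h).filter (fun a => Exc A (mv a n))).card : ℝ) := ⟨_, rfl⟩
  obtain ⟨W, hW⟩ : ∃ W : ℝ, W = ((wbox (2 * r) h).card : ℝ) := ⟨_, rfl⟩
  have hS0 : 0 ≤ S := by rw [hS]; positivity
  have hW0 : 0 ≤ W := by rw [hW]; positivity
  have h2 : S * ((2 * Q + 1) * (2 * P + 1)) ≤ R * W := by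
    have h3 : (((wbox (2 * r) h).filter (fun a => Exc A (mv a n))).card : ℝ) *
        ((2 * Q + 1) * (2 * P + 1)) ≤ (⌊R⌋₊ : ℝ) * ((wbox (2 * r) h).card : ℝ) := by
      have h4 : (((wbox (2 * r) h).filter (fun a => Exc A (mv a n))).card) *
        ((2 * Q + 1) * (2 * P + 1)) ≤ ⌊R⌋₊ * (wbox (2 * r) h).card := by
        rw [hQ, hP]
        exact h1
      exact_mod_cast h4
    rw [hS, hW]
    refine h3.trans ?_
    gcongr
    exact Nat.floor_le hR0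
  have hR2 : R ≤ (8 * C * (P * m) / s ^ r + 1) * (3 * Q / m + 1) := by
    rw [hR, hnr]
    have hsr : 0 < s ^ r := by positivity
    have h3 : C * (2 * (P * m + Q) / L ^ (1 / 4 : ℝ)) ≤ 8 * C * (P * m) / s ^ r := by
      have h4 : 2 * ((P : ℝ) * m + Q) / L ^ (1 / 4 : ℝ) ≤ 4 * (P * m) / (s ^ r / 2) := by
        have h5 : 2 * ((P : ℝ) * m + Q) ≤ 4 * (P * m) := by linarith
        gcongr
      calc C * (2 * (P * m + Q) / L ^ (1 / 4 : ℝ)) ≤ C * (4 * (P * m) / (s ^ r / 2)) := by gcongr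
        _ = _ := by field_simp; ring
    have h6 : (2 * (Q : ℝ) + 1) / m ≤ 3 * Q / m := by
      gcongr
      linarith
    gcongr
  have h3 : S ≤ W * (6 * C * ((s ^ r)⁻¹ + m * (Q * s ^ r)⁻¹ + ((P : ℝ) * m)⁻¹ + ((P : ℝ) * Q)⁻¹)) := by
    have hm0 : (m : ℝ) ≠ 0 := by positivity
    have hP0 : (P : ℝ) ≠ 0 := by positivity
    have hQ0 : (Q : ℝ) ≠ 0 := by positivity
    have hsr : s ^ r ≠ 0 := by positivity
    have h4 : S * (4 * (P * Q)) ≤ W * ((8 * C * (P * m) / s ^ r + 1) * (3 * Q / m + 1)) := by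
      calc S * (4 * (P * Q)) ≤ S * ((2 * Q + 1) * (2 * P + 1)) := by
            apply mul_le_mul_of_nonneg_left _ hS0
            nlinarith
        _ ≤ R * W := h2
        _ = W * R := mul_comm _ _
        _ ≤ _ := by gcongr
    have h5 : (8 * C * (P * m) / s ^ r + 1) * (3 * Q / m + 1) =
        (4 * (P * Q)) * (6 * C * (s ^ r)⁻¹ + 2 * C * (m * (Q * s ^ r)⁻¹) + 3 / 4 * ((P : ℝ) * m)⁻¹ +
        1 / 4 * ((P : ℝ) * Q)⁻¹) := by
      field_simp
      ring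
    rw [h5] at h4
    have h6 : S ≤ W * (6 * C * (s ^ r)⁻¹ + 2 * C * (m * (Q * s ^ r)⁻¹) + 3 / 4 * ((P : ℝ) * m)⁻¹ +
        1 / 4 * ((P : ℝ) * Q)⁻¹) := by
      have h7 : 0 < 4 * ((P : ℝ) * Q) := by positivity
      by_contra hcon
      push Not at hcon
      have h8 := mul_lt_mul_of_pos_right hcon h7
      have h9 : W * (6 * C * (s ^ r)⁻¹ + 2 * C * (m * (Q * s ^ r)⁻¹) + 3 / 4 * ((P : ℝ) * m)⁻¹ +
        1 / 4 * ((P : ℝ) * Q)⁻¹) * (4 * (P * Q)) = W * ((4 * (P * Q)) * (6 * C * (s ^ r)⁻¹ +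
        2 * C * (m * (Q * s ^ r)⁻¹) + 3 / 4 * ((P : ℝ) * m)⁻¹ + 1 / 4 * ((P : ℝ) * Q)⁻¹)) := by ring
      rw [h9] at h8
      linarith
    refine h6.trans ?_
    apply mul_le_mul_of_nonneg_left _ hW0
    have e1 : 0 ≤ (s ^ r)⁻¹ := by positivity
    have e2 : 0 ≤ (m : ℝ) * (Q * s ^ r)⁻¹ := by positivity
    have e3 : 0 ≤ ((P : ℝ) * m)⁻¹ := by positivity
    have e4 : 0 ≤ ((P : ℝ) * Q)⁻¹ := by positivity
    nlinarith
  rw [← hS, ← hW]
  refine h3.trans ?_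
  rw [← hs, ← ht]
  have hPc : (h : ℝ) ^ (2 * r - 1) = P := by rw [hP]; push_cast; rfl
  have hQc : (h : ℝ) ^ (2 * r) = Q := by rw [hQ]; push_cast; rfl
  rw [hPc, hQc]
  have htr : 0 < t ^ (r - 3) := by positivity
  have hst : t ^ (r - 3) ≤ s ^ (r - 3) := by gcongr
  have hsr3 : s ^ r = s ^ 3 * s ^ (r - 3) := by
    rw [← pow_add]; congr 1; omega
  have g1 : (s ^ r)⁻¹ ≤ (s ^ 3)⁻¹ * (t ^ (r - 3))⁻¹ := by
    rw [hsr3, mul_inv]
    gcongr
  have g2 : (m : ℝ) * (Q * s ^ r)⁻¹ ≤ s⁻¹ * (Q * t ^ (r - 3))⁻¹ := by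
    have h4 : (m : ℝ) * (Q * s ^ r)⁻¹ = s⁻¹ * (Q * s ^ (r - 3))⁻¹ := by
      rw [← hs2, hsr3]
      have h5 : s ≠ 0 := by positivity
      have h6 : (Q : ℝ) ≠ 0 := by positivity
      have h7 : s ^ (r - 3) ≠ 0 := by positivity
      field_simp
    rw [h4]
    gcongr
  have g3 : ((P : ℝ) * m)⁻¹ ≤ s⁻¹ * (P * t)⁻¹ := by
    rw [← mul_inv, ← hs2]
    have h5 : s * (P * t) ≤ P * s ^ 2 := by
      calc s * (P * t) ≤ s * (P * s) := by gcongr
        _ = P * s ^ 2 := by ring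
    gcongr
  apply mul_le_mul_of_nonneg_left _ hW0
  apply mul_le_mul_of_nonneg_left _ (by linarith)
  rw [mul_add]
  linarith

end T9h23.Ac
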