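import Pool.Agent.T9h23.Ac.B2

/-! # Small and moderate arguments -/

set_option autoImplicit false

namespace T9h23.Ac

open Finset T9h23.Ru T9h23.Ab T9h23.Pe
open scoped Classical

theorem inv_aux {a b x : ℝ} (ha : 0 < a) (hb : 0 < b) (h : x * b ≤ a) : x * a⁻¹ ≤ b⁻¹ := by
  rw [← div_eq_mul_inv, inv_eq_one_div, div_le_div_iff₀ ha hb, one_mul]
  exact h

/-- **Moderate arguments.** -/
theorem mid_total (r : ℕ) (hr : 3 ≤ r) (A C₃ : ℕ) (hC₃ : 1 ≤ C₃) : ∃ K : ℝ, 0 < K ∧ ∀ h : ℕ, 1 ≤ h →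
    (((wbox (2 * r) h).filter (fun a => ∃ n : ℤ, ((8 * r * h : ℕ) : ℤ) ≤ |n| ∧
      |n| ≤ ((C₃ * h ^ (3 * r + 1) : ℕ) : ℤ) ∧ Exc A (mv a n))).card : ℝ) ≤
      (wbox (2 * r) h).card * (K * (Real.sqrt h ^ (r - 2))⁻¹) := by
  obtain ⟨C, hC, hn⟩ := mid_n r hr A
  have hC3r : (1 : ℝ) ≤ C₃ := by exact_mod_cast hC₃
  refine ⟨2 * C * (3 + 5 * C₃), by positivity, ?_⟩
  intro h hh
  have hhr : (1 : ℝ) ≤ h := by exact_mod_cast hh
  obtain ⟨X, hX⟩ : ∃ X : ℕ, X = C₃ * h ^ (3 * r + 1) := ⟨_, rfl⟩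
  obtain ⟨t, ht⟩ : ∃ t : ℝ, t = Real.sqrt h := ⟨_, rfl⟩
  have ht2 : t ^ 2 = h := by rw [ht]; exact Real.sq_sqrt (by linarith)
  have ht1 : 1 ≤ t := by rw [ht]; exact Real.one_le_sqrt.2 hhr
  have ht0 : 0 < t := by linarith
  have hhX : h ≤ X := by
    rw [hX]
    calc h ≤ h ^ (3 * r + 1) := Nat.le_self_pow (by omega) h
      _ ≤ C₃ * h ^ (3 * r + 1) := Nat.le_mul_of_pos_left _ hC₃
  obtain ⟨W, hW⟩ : ∃ W : ℝ, W = ((wbox (2 * r) h).card : ℝ) := ⟨_, rfl⟩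
  have hW0 : 0 ≤ W := by rw [hW]; positivity
  rw [← hX, ← hW, ← ht]
  set S : ℤ → Finset (Fin (2 * r) → ℤ) := fun n => (wbox (2 * r) h).filter (fun a => Exc A (mv a n)) with hS
  have hsub : (wbox (2 * r) h).filter (fun a => ∃ n : ℤ, ((8 * r * h : ℕ) : ℤ) ≤ |n| ∧ |n| ≤ (X : ℤ) ∧
      Exc A (mv a n)) ⊆ ((Icc h X).filter (fun m => 8 * r * h ≤ m)).biUnion
      (fun m : ℕ => S (m : ℤ) ∪ S (-(m : ℤ))) := by
    intro a ha
    rw [mem_filter] at ha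
    obtain ⟨ha1, n, hn1, hn2, hE⟩ := ha
    have hna : ((n.natAbs : ℕ) : ℤ) = |n| := Int.natCast_natAbs n
    rw [← hna] at hn1 hn2
    have hn1' : 8 * r * h ≤ n.natAbs := by exact_mod_cast hn1
    have hn2' : n.natAbs ≤ X := by exact_mod_cast hn2
    rw [mem_biUnion]
    refine ⟨n.natAbs, ?_, ?_⟩
    · rw [mem_filter, mem_Icc]
      refine ⟨⟨?_, hn2'⟩, hn1'⟩
      nlinarith
    · rw [mem_union]
      rcases Int.natAbs_eq n with h1 | h1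
      · left
        rw [← h1, hS]
        dsimp only
        rw [mem_filter]
        exact ⟨ha1, hE⟩
      · right
        have h2 : -(n.natAbs : ℤ) = n := h1.symm
        rw [h2, hS]
        dsimp only
        rw [mem_filter]
        exact ⟨ha1, hE⟩
  obtain ⟨α, hα⟩ : ∃ α : ℝ, α = (t ^ (r - 3))⁻¹ := ⟨_, rfl⟩
  obtain ⟨β, hβ⟩ : ∃ β : ℝ, β = ((h : ℝ) ^ (2 * r) * t ^ (r - 3))⁻¹ + ((h : ℝ) ^ (2 * r - 1) * t)⁻¹ := ⟨_, rfl⟩
  obtain ⟨δ, hδ⟩ : ∃ δ : ℝ, δ = ((h : ℝ) ^ (2 * r - 1) * (h : ℝ) ^ (2 * r))⁻¹ := ⟨_, rfl⟩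
  have hα0 : 0 ≤ α := by rw [hα]; positivity
  have hβ0 : 0 ≤ β := by rw [hβ]; positivity
  have hδ0 : 0 ≤ δ := by rw [hδ]; positivity
  have hper : ∀ m ∈ (Icc h X).filter (fun m => 8 * r * h ≤ m), (((S (m : ℤ) ∪ S (-(m : ℤ))).card : ℕ) : ℝ) ≤
      2 * W * C * ((Real.sqrt m ^ 3)⁻¹ * α + (Real.sqrt m)⁻¹ * β + δ) := by
    intro m hm
    rw [mem_filter, mem_Icc] at hm
    have h1 := hn h m hh hm.2 (m : ℤ) (abs_of_nonneg (by positivity))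
    have h2 := hn h m hh hm.2 (-(m : ℤ)) (by rw [abs_neg]; exact abs_of_nonneg (by positivity))
    rw [← hW, ← ht, ← hα, ← hβ, ← hδ] at h1 h2
    have h3 : (((S (m : ℤ) ∪ S (-(m : ℤ))).card : ℕ) : ℝ) ≤ ((S (m : ℤ)).card : ℝ) + ((S (-(m : ℤ))).card : ℝ) := by
      exact_mod_cast Finset.card_union_le _ _
    have h4 : 2 * W * C * ((Real.sqrt m ^ 3)⁻¹ * α + (Real.sqrt m)⁻¹ * β + δ) =
        W * (C * ((Real.sqrt m ^ 3)⁻¹ * α + (Real.sqrt m)⁻¹ * β + δ)) +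
        W * (C * ((Real.sqrt m ^ 3)⁻¹ * α + (Real.sqrt m)⁻¹ * β + δ)) := by ring
    rw [h4]
    exact h3.trans (add_le_add h1 h2)
  have hsum1 : ∑ m ∈ Icc h X, (Real.sqrt m ^ 3)⁻¹ ≤ 3 * t⁻¹ := by
    have h1 := sum_three_half h hh X hhX
    rw [← ht] at h1
    have h2 : 0 ≤ (Real.sqrt X)⁻¹ := by positivity
    linarith
  have hsum2 : ∑ m ∈ Icc h X, (Real.sqrt m)⁻¹ ≤ 2 * (C₃ * t ^ (3 * r + 1)) := by
    have h1 : ∑ m ∈ Icc h X, (Real.sqrt m)⁻¹ ≤ ∑ m ∈ Icc 1 X, (Real.sqrt m)⁻¹ := by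
      apply Finset.sum_le_sum_of_subset_of_nonneg
      · exact Finset.Icc_subset_Icc_left hh
      · intro m _ _; positivity
    refine h1.trans ((sum_half X).trans ?_)
    have h2 : Real.sqrt X ≤ C₃ * t ^ (3 * r + 1) := by
      rw [Real.sqrt_le_left (by positivity), hX]
      push_cast
      rw [mul_pow, ← ht2, ← pow_mul, ← pow_mul]
      have h3 : 2 * (3 * r + 1) = (3 * r + 1) * 2 := by ring
      rw [h3]
      have h4 : (C₃ : ℝ) ≤ (C₃ : ℝ) ^ 2 := le_self_pow₀ hC3r (by norm_num)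
      gcongr
    linarith
  have hsum3 : (((Icc h X).card : ℕ) : ℝ) ≤ C₃ * t ^ (6 * r + 2) := by
    have h1 : (Icc h X).card ≤ X := by
      rw [Nat.card_Icc]; omega
    have h2 : (((Icc h X).card : ℕ) : ℝ) ≤ (X : ℝ) := by exact_mod_cast h1
    refine h2.trans (le_of_eq ?_)
    rw [hX]
    push_cast
    rw [← ht2, ← pow_mul]
    congr 2
    ring
  have hfin : 3 * t⁻¹ * α + 2 * (C₃ * t ^ (3 * r + 1)) * β + C₃ * t ^ (6 * r + 2) * δ ≤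
      (3 + 5 * C₃) * (t ^ (r - 2))⁻¹ := by
    have hTr : 0 < t ^ (r - 2) := by positivity
    have e1 : t⁻¹ * α = (t ^ (r - 2))⁻¹ := by
      rw [hα, ← mul_inv, ← pow_succ']
      congr 2
      omega
    have hP : (h : ℝ) ^ (2 * r - 1) = t ^ (4 * r - 2) := by
      rw [← ht2, ← pow_mul]; congr 1; omega
    have hQ : (h : ℝ) ^ (2 * r) = t ^ (4 * r) := by
      rw [← ht2, ← pow_mul]; congr 1; ring
    have e2 : t ^ (3 * r + 1) * ((h : ℝ) ^ (2 * r) * t ^ (r - 3))⁻¹ ≤ (t ^ (r - 2))⁻¹ := by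
      refine inv_aux (by positivity) hTr ?_
      rw [hQ, ← pow_add, ← pow_add]
      exact pow_le_pow_right₀ ht1 (by omega)
    have e3 : t ^ (3 * r + 1) * ((h : ℝ) ^ (2 * r - 1) * t)⁻¹ ≤ (t ^ (r - 2))⁻¹ := by
      refine inv_aux (by positivity) hTr ?_
      rw [hP, ← pow_add, ← pow_succ]
      exact pow_le_pow_right₀ ht1 (by omega)
    have e4 : t ^ (6 * r + 2) * δ ≤ (t ^ (r - 2))⁻¹ := by
      rw [hδ]
      refine inv_aux (by positivity) hTr ?_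
      rw [hP, hQ, ← pow_add, ← pow_add]
      exact pow_le_pow_right₀ ht1 (by omega)
    have e5 : t ^ (3 * r + 1) * β ≤ 2 * (t ^ (r - 2))⁻¹ := by
      rw [hβ, mul_add]
      linarith
    have e6 : 3 * t⁻¹ * α = 3 * (t ^ (r - 2))⁻¹ := by rw [mul_assoc, e1]
    calc 3 * t⁻¹ * α + 2 * (C₃ * t ^ (3 * r + 1)) * β + C₃ * t ^ (6 * r + 2) * δ
        = 3 * (t ^ (r - 2))⁻¹ + (2 * C₃) * (t ^ (3 * r + 1) * β) + C₃ * (t ^ (6 * r + 2) * δ) := by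
          rw [e6]; ring
      _ ≤ 3 * (t ^ (r - 2))⁻¹ + (2 * C₃) * (2 * (t ^ (r - 2))⁻¹) + C₃ * (t ^ (r - 2))⁻¹ := by gcongr
      _ = _ := by ring
  have h1 : (((((Icc h X).filter (fun m => 8 * r * h ≤ m)).biUnion
      (fun m : ℕ => S (m : ℤ) ∪ S (-(m : ℤ)))).card : ℕ) : ℝ) ≤
      ∑ m ∈ (Icc h X).filter (fun m => 8 * r * h ≤ m), (((S (m : ℤ) ∪ S (-(m : ℤ))).card : ℕ) : ℝ) := by
    exact_mod_cast Finset.card_biUnion_le
  refine (show _ ≤ _ by exact_mod_cast Finset.card_le_card hsub).trans (h1.trans ?_)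
  refine (Finset.sum_le_sum hper).trans ?_
  refine (Finset.sum_le_sum_of_subset_of_nonneg (Finset.filter_subset _ (Icc h X)) (by
    intro m _ _
    positivity)).trans ?_
  rw [← Finset.mul_sum, Finset.sum_add_distrib, Finset.sum_add_distrib, ← Finset.sum_mul, ← Finset.sum_mul,
    Finset.sum_const, nsmul_eq_mul]
  calc 2 * W * C * ((∑ m ∈ Icc h X, (Real.sqrt m ^ 3)⁻¹) * α + (∑ m ∈ Icc h X, (Real.sqrt m)⁻¹) * β +
        (((Icc h X).card : ℕ) : ℝ) * δ)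
      ≤ 2 * W * C * (3 * t⁻¹ * α + 2 * (C₃ * t ^ (3 * r + 1)) * β + C₃ * t ^ (6 * r + 2) * δ) := by gcongr
    _ ≤ 2 * W * C * ((3 + 5 * C₃) * (t ^ (r - 2))⁻¹) := by gcongr
    _ = _ := by ring

/-- **Small arguments.** -/
theorem small_total (r : ℕ) (hr : 3 ≤ r) (A C₁ : ℕ) (hC₁ : 1 ≤ C₁) : ∃ K : ℝ, 0 < K ∧ ∀ h : ℕ, 1 ≤ h →
    (((wbox (2 * r) h).filter (fun a => ∃ n : ℤ, |n| ≤ ((C₁ * h : ℕ) : ℤ) ∧ Exc A (mv a n))).card : ℝ) ≤
      (wbox (2 * r) h).card * (K * (Real.sqrt h ^ (r - 2))⁻¹) := by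
  obtain ⟨K₀, hK₀, hcount⟩ := global_count A
  have hC1r : (1 : ℝ) ≤ C₁ := by exact_mod_cast hC₁
  obtain ⟨c, hc⟩ : ∃ c : ℝ, c = ((2 * (r : ℝ) + 1) * (C₁ : ℝ) ^ (2 * r)) ^ (3 / 4 : ℝ) := ⟨_, rfl⟩
  have hc0 : 0 < c := by rw [hc]; positivity
  refine ⟨3 * C₁ * (K₀ * c), by positivity, ?_⟩
  intro h hh
  have hhr : (1 : ℝ) ≤ h := by exact_mod_cast hh
  obtain ⟨t, ht⟩ : ∃ t : ℝ, t = Real.sqrt h := ⟨_, rfl⟩
  have ht2 : t ^ 2 = h := by rw [ht]; exact Real.sq_sqrt (by linarith)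
  have ht1 : 1 ≤ t := by rw [ht]; exact Real.one_le_sqrt.2 hhr
  have ht0 : 0 < t := by linarith
  obtain ⟨W, hW⟩ : ∃ W : ℝ, W = ((wbox (2 * r) h).card : ℝ) := ⟨_, rfl⟩
  have hW0 : 0 ≤ W := by rw [hW]; positivity
  rw [← hW, ← ht]
  obtain ⟨Y, hY⟩ : ∃ Y : ℝ, Y = (2 * (r : ℝ) + 1) * ((C₁ : ℝ) * h) ^ (2 * r) := ⟨_, rfl⟩
  have hY1 : 1 ≤ Y := by
    have h1 : (1 : ℝ) ≤ ((C₁ : ℝ) * h) ^ (2 * r) := one_le_pow₀ (by nlinarith)
    have h2 : (0 : ℝ) ≤ r := Nat.cast_nonneg r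
    rw [hY]
    nlinarith
  have hYc : Y ^ (3 / 4 : ℝ) = c * t ^ (3 * r) := by
    have h1 : Y = ((2 * (r : ℝ) + 1) * (C₁ : ℝ) ^ (2 * r)) * (t ^ (3 * r)) ^ (4 / 3 : ℝ) := by
      have h2 : (t ^ (3 * r)) ^ (4 / 3 : ℝ) = (h : ℝ) ^ (2 * r) := by
        rw [← Real.rpow_natCast t (3 * r), ← Real.rpow_mul ht0.le, ← ht2, ← pow_mul,
          ← Real.rpow_natCast t (2 * (2 * r))]
        congr 1
        push_cast
        ring
      rw [h2, hY, mul_pow]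
      ring
    rw [h1, Real.mul_rpow (by positivity) (by positivity), ← hc, ← Real.rpow_mul (by positivity)]
    norm_num
  set S : ℤ → Finset (Fin (2 * r) → ℤ) := fun n => (wbox (2 * r) h).filter (fun a => Exc A (mv a n)) with hS
  have hsub : (wbox (2 * r) h).filter (fun a => ∃ n : ℤ, |n| ≤ ((C₁ * h : ℕ) : ℤ) ∧ Exc A (mv a n)) ⊆
      (Icc (-((C₁ * h : ℕ) : ℤ)) ((C₁ * h : ℕ) : ℤ)).biUnion S := by
    intro a ha
    rw [mem_filter] at ha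
    obtain ⟨ha1, n, hn1, hE⟩ := ha
    rw [mem_biUnion]
    refine ⟨n, ?_, ?_⟩
    · rw [mem_Icc, ← abs_le]; exact hn1
    · rw [hS]
      dsimp only
      rw [mem_filter]
      exact ⟨ha1, hE⟩
  set i₀ : Fin (2 * r) := ⟨0, by omega⟩ with hi₀
  set i₁ : Fin (2 * r) := ⟨1, by omega⟩ with hi₁
  have h01 : i₁ ≠ i₀ := by
    rw [hi₀, hi₁]
    intro h
    have := congrArg Fin.val h
    simp at this
  have hper : ∀ n ∈ Icc (-((C₁ * h : ℕ) : ℤ)) ((C₁ * h : ℕ) : ℤ), ((S n).card : ℝ) ≤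
      W * (K₀ * Y ^ (3 / 4 : ℝ)) * (t ^ (4 * r))⁻¹ := by
    intro n hn
    rw [mem_Icc, ← abs_le] at hn
    have h1 := fibre (fun i : Fin (2 * r) => h ^ (2 * r - (i : ℕ))) (S n) (Finset.filter_subset _ _) i₀
      ⌊K₀ * Y ^ (3 / 4 : ℝ)⌋₊ (by
        intro a ha
        apply Nat.le_floor
        set F := (S n).filter (fun b => ∀ i, i ≠ i₀ → b i = a i) with hF
        have hmv : ∀ b ∈ F, mv b n = mv a n - a i₀ + b i₀ := by
          intro b hb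
          rw [hF, mem_filter] at hb
          have h2 := mv_two i₀ i₁ rfl rfl a b (fun i hi _ => hb.2 i hi) n
          rw [h2, hb.2 i₁ h01]
          ring
        have hinj : Set.InjOn (fun b : Fin (2 * r) → ℤ => mv b n) (F : Set (Fin (2 * r) → ℤ)) := by
          intro b hb c hc hbc
          have hbc' : mv b n = mv c n := hbc
          rw [Finset.mem_coe] at hb hc
          rw [hmv b hb, hmv c hc] at hbc'
          rw [hF, mem_filter] at hb hc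
          funext i
          by_cases hi : i = i₀
          · rw [hi]; linarith
          · rw [hb.2 i hi, hc.2 i hi]
        rw [← Finset.card_image_of_injOn hinj]
        refine hcount Y hY1 _ ?_
        intro v hv
        rw [mem_image] at hv
        obtain ⟨b, hb, rfl⟩ := hv
        rw [hF, mem_filter, hS] at hb
        dsimp only at hb
        rw [mem_filter] at hb
        refine ⟨?_, hb.1.2⟩
        have h2 := mv_le (by omega) b (mem_wbox.1 hb.1.1) n ((C₁ * h : ℕ) : ℤ) hn (by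
          have : h ≤ C₁ * h := Nat.le_mul_of_pos_left _ hC₁
          exact_mod_cast this)
        rw [hY]
        have h3 : ((|mv b n| : ℤ) : ℝ) ≤ (((((2 * r : ℕ) : ℤ) + 1) * ((C₁ * h : ℕ) : ℤ) ^ (2 * r) : ℤ) : ℝ) := by
          exact_mod_cast h2
        push_cast at h3
        exact h3)
    have h2 : ((S n).card : ℝ) * (2 * t ^ (4 * r) + 1) ≤ (K₀ * Y ^ (3 / 4 : ℝ)) * W := by
      have h3 : ((S n).card : ℝ) * (2 * (h : ℝ) ^ (2 * r) + 1) ≤ (⌊K₀ * Y ^ (3 / 4 : ℝ)⌋₊ : ℝ) *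
          ((wbox (2 * r) h).card : ℝ) := by
        have h4 : (S n).card * (2 * h ^ (2 * r) + 1) ≤ ⌊K₀ * Y ^ (3 / 4 : ℝ)⌋₊ * (wbox (2 * r) h).card := h1
        exact_mod_cast h4
      have hQ : (h : ℝ) ^ (2 * r) = t ^ (4 * r) := by
        rw [← ht2, ← pow_mul]; congr 1; ring
      rw [hQ, ← hW] at h3
      refine h3.trans ?_
      gcongr
      exact Nat.floor_le (by positivity)
    rw [← div_eq_mul_inv, le_div_iff₀ (by positivity)]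
    have h3 : 0 ≤ ((S n).card : ℝ) := by positivity
    have h4 : 0 < t ^ (4 * r) := by positivity
    calc ((S n).card : ℝ) * t ^ (4 * r) ≤ ((S n).card : ℝ) * (2 * t ^ (4 * r) + 1) := by
          apply mul_le_mul_of_nonneg_left _ h3
          linarith
      _ ≤ (K₀ * Y ^ (3 / 4 : ℝ)) * W := h2
      _ = _ := by ring
  have h1 : ((((Icc (-((C₁ * h : ℕ) : ℤ)) ((C₁ * h : ℕ) : ℤ)).biUnion S).card : ℕ) : ℝ) ≤
      ∑ n ∈ Icc (-((C₁ * h : ℕ) : ℤ)) ((C₁ * h : ℕ) : ℤ), ((S n).card : ℝ) := by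
    exact_mod_cast Finset.card_biUnion_le
  refine (show _ ≤ _ by exact_mod_cast Finset.card_le_card hsub).trans (h1.trans ?_)
  refine (Finset.sum_le_card_nsmul _ _ _ hper).trans ?_
  rw [nsmul_eq_mul]
  have hIcc : ((Icc (-((C₁ * h : ℕ) : ℤ)) ((C₁ * h : ℕ) : ℤ)).card : ℝ) ≤ 3 * (C₁ * t ^ 2) := by
    rw [Int.card_Icc]
    have h2 : (((C₁ * h : ℕ) : ℤ) + 1 - -((C₁ * h : ℕ) : ℤ)).toNat = 2 * (C₁ * h) + 1 := by omega
    rw [h2, ht2]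
    push_cast
    nlinarith
  have hlast : t ^ 2 * t ^ (3 * r) * (t ^ (4 * r))⁻¹ ≤ (t ^ (r - 2))⁻¹ := by
    refine inv_aux (by positivity) (by positivity) ?_
    rw [← pow_add, ← pow_add]
    exact pow_le_pow_right₀ ht1 (by omega)
  calc _ ≤ (3 * (C₁ * t ^ 2)) * (W * (K₀ * Y ^ (3 / 4 : ℝ)) * (t ^ (4 * r))⁻¹) := by gcongr
    _ = W * (3 * C₁ * (K₀ * c)) * (t ^ 2 * t ^ (3 * r) * (t ^ (4 * r))⁻¹) := by
        rw [hYc]; ring
    _ ≤ W * (3 * C₁ * (K₀ * c)) * (t ^ (r - 2))⁻¹ := by gcongr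
    _ = _ := by ring

end T9h23.Ac
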