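import Pool.Agent.T9h23.Ac.B3
import Pool.Agent.T9h23.Ab.A6

/-! # Large arguments, and the polynomials with a small first remainder -/

set_option autoImplicit false

namespace T9h23.Ac

open Finset Polynomial T9h23.Ru T9h23.Ab T9h23.Pe
open scoped Classical

/-- the coefficient `β` is linear in the coefficient of index `r - 1` -/
theorem be_sub (r : ℕ) (hr : 3 ≤ r) (a b : Fin (2 * r) → ℤ) (i₀ : Fin (2 * r)) (hi₀ : (i₀ : ℕ) = r - 1)
    (hab : ∀ i, i ≠ i₀ → a i = b i) : be r a 1 - be r b 1 = 3 / 4 * ((a i₀ : ℚ) - b i₀) := by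
  have hk : 2 * r - (i₀ : ℕ) = r + 1 := by omega
  have hdvd : X ^ (r + 1) ∣ pol a - pol b := by
    rw [X_pow_dvd_iff]
    intro k hk2
    rw [coeff_sub, coeff_pol, coeff_pol, ← Finset.sum_sub_distrib]
    refine Finset.sum_eq_zero fun i _ => ?_
    split_ifs with h1
    · rw [hab i, sub_self]
      rintro rfl
      omega
    · simp
  unfold be lin
  rw [← Finset.sum_sub_distrib, Finset.sum_eq_single 1]
  · rw [pow_one, pow_one]
    have e1 := coeff_pol_self a i₀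
    have e2 := coeff_pol_self b i₀
    rw [hk] at e1 e2
    rw [e1, e2]
    have h2 : bc (3 / 2) (1 + 1) = 3 / 8 := bc_two
    rw [h2]
    push_cast
    ring
  · intro j hj hj1
    rcases Nat.lt_or_ge j 2 with h | h
    · have h0 : j = 0 := by omega
      subst h0
      simp
    · have h2 := pow_sub_dvd (pol a) (pol b) (r + 1) (coeff_pol_zero a) (coeff_pol_zero b) hdvd j h
      rw [X_pow_dvd_iff] at h2
      have h3 := h2 (r + 1) (by omega)
      rw [coeff_sub] at h3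
      have h4 : (pol a ^ j).coeff (r + 1) = (pol b ^ j).coeff (r + 1) := by omega
      rw [h4, sub_self]
  · intro h
    exact absurd (mem_range.2 (by omega)) h

/-- the first remainder is linear in the constant coefficient -/
theorem lamb_zero (r : ℕ) (hr : 3 ≤ r) (a b : Fin (2 * r) → ℤ) (i₀ : Fin (2 * r)) (hi₀ : (i₀ : ℕ) = 0)
    (hab : ∀ i, i ≠ i₀ → b i = a i) : lamb r b 1 = lamb r a 1 + ((b i₀ : ℚ) - a i₀) * be r a 1 := by
  have hb : b = pert a 0 (b i₀ - a i₀) := by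
    funext i
    unfold pert
    by_cases hi : i = i₀
    · subst hi
      rw [if_neg (by omega), if_pos hi₀]
      ring
    · have hi0 : (i : ℕ) ≠ 0 := fun h => hi (Fin.ext (by rw [h, hi₀]))
      have e1 : (if (i : ℕ) = 0 then b i₀ - a i₀ else 0) = 0 := if_neg hi0
      rw [hab i hi, e1]
      split_ifs <;> ring
  have h1 := lamb_pert r hr a 0 (b i₀ - a i₀) 1 (by omega)
  rw [← hb] at h1
  rw [h1]
  have h2 : (if 1 = r - 2 then 3 / 8 * (((0 : ℤ) : ℚ)) ^ 2 else 0) = 0 := by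
    split_ifs <;> norm_num
  rw [h2]
  push_cast
  ring

/-- denominators -/
theorem be_den (r : ℕ) : ∃ D : ℕ, 1 ≤ D ∧ ∀ a : Fin (2 * r) → ℤ, be r a 1 ≠ 0 → 1 ≤ (D : ℝ) * |(be r a 1 : ℝ)| := by
  obtain ⟨D, hD, hden⟩ := den (3 / 2) (4 * r)
  refine ⟨D, hD, ?_⟩
  intro a ha
  have hz : ∃ z : ℤ, (D : ℚ) * be r a 1 = z := by
    have h1 : ∀ i ∈ range (4 * r - 1 - 1), ∃ z : ℤ,
        (D : ℚ) * (bc (3 / 2) (i + 1) * ((i + 1 : ℕ) : ℚ) * (((pol a) ^ i).coeff (r + 1) : ℚ)) = z := by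
      intro i hi
      rw [mem_range] at hi
      obtain ⟨z, hz⟩ := hden (i + 1) (mem_range.2 (by omega))
      refine ⟨z * ((i + 1 : ℕ) : ℤ) * ((pol a) ^ i).coeff (r + 1), ?_⟩
      push_cast
      rw [← hz]
      ring
    choose! z hz using h1
    refine ⟨∑ i ∈ range (4 * r - 1 - 1), z i, ?_⟩
    unfold be lin
    rw [Finset.mul_sum, Int.cast_sum]
    exact Finset.sum_congr rfl hz
  obtain ⟨z, hz⟩ := hz
  have hz0 : z ≠ 0 := by
    rintro rfl
    rw [Int.cast_zero] at hz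
    rcases mul_eq_zero.1 hz with h1 | h1
    · have : (D : ℚ) ≠ 0 := by positivity
      exact this h1
    · exact ha h1
  have h2 : (D : ℝ) * |(be r a 1 : ℝ)| = |(z : ℝ)| := by
    have h3 : (D : ℝ) * (be r a 1 : ℝ) = z := by
      have := congrArg (fun q : ℚ => (q : ℝ)) hz
      push_cast at this
      exact this
    rw [← h3, abs_mul, abs_of_nonneg (Nat.cast_nonneg D : (0 : ℝ) ≤ D)]
  rw [h2]
  exact_mod_cast Int.one_le_abs hz0

/-- **Few polynomials with a small first remainder.** -/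
theorem fewL (r : ℕ) (hr : 3 ≤ r) : ∃ D : ℝ, 1 ≤ D ∧ ∀ h : ℕ, 1 ≤ h → ∀ R : ℝ, 1 ≤ R →
    (((wbox (2 * r) h).filter (fun a => |(lamb r a 1 : ℝ)| < R)).card : ℝ) ≤
      (wbox (2 * r) h).card * (((h : ℝ) ^ (r + 1))⁻¹ + D * R * ((h : ℝ) ^ (2 * r))⁻¹) := by
  obtain ⟨D, hD, hden⟩ := be_den r
  have hDr : (1 : ℝ) ≤ D := by exact_mod_cast hD
  refine ⟨3 * D, by linarith, ?_⟩
  intro h hh R hR
  have hhr : (1 : ℝ) ≤ h := by exact_mod_cast hh
  obtain ⟨W, hW⟩ : ∃ W : ℝ, W = ((wbox (2 * r) h).card : ℝ) := ⟨_, rfl⟩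
  have hW0 : 0 ≤ W := by rw [hW]; positivity
  set S1 := (wbox (2 * r) h).filter (fun a => be r a 1 = 0) with hS1
  set S2 := (wbox (2 * r) h).filter (fun a => |(lamb r a 1 : ℝ)| < R ∧ be r a 1 ≠ 0) with hS2
  have hsub : (wbox (2 * r) h).filter (fun a => |(lamb r a 1 : ℝ)| < R) ⊆ S1 ∪ S2 := by
    intro a ha
    rw [mem_filter] at ha
    rw [mem_union, hS1, hS2, mem_filter, mem_filter]
    by_cases h0 : be r a 1 = 0
    · left; exact ⟨ha.1, h0⟩
    · right; exact ⟨ha.1, ha.2, h0⟩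
  have b1 : (S1.card : ℝ) ≤ W * ((h : ℝ) ^ (r + 1))⁻¹ := by
    set j₀ : Fin (2 * r) := ⟨r - 1, by omega⟩ with hj₀
    have hk : 2 * r - (j₀ : ℕ) = r + 1 := by
      rw [hj₀]; dsimp only; omega
    have h1 := fibre (fun i : Fin (2 * r) => h ^ (2 * r - (i : ℕ))) S1 (Finset.filter_subset _ _) j₀ 1 (by
      intro a _
      rw [Finset.card_le_one]
      intro b hb c hc
      rw [mem_filter, hS1, mem_filter] at hb hc
      have h2 := be_sub r hr b c j₀ rfl (fun i hi => by rw [hb.2 i hi, hc.2 i hi])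
      rw [hb.1.2, hc.1.2, sub_zero] at h2
      have h3 : (b j₀ : ℚ) = c j₀ := by linarith
      have h4 : b j₀ = c j₀ := by exact_mod_cast h3
      funext i
      by_cases hi : i = j₀
      · rw [hi]; exact h4
      · rw [hb.2 i hi, hc.2 i hi])
    have h2 : (S1.card : ℝ) * (2 * (h : ℝ) ^ (r + 1) + 1) ≤ W := by
      have h3 : S1.card * (2 * h ^ (r + 1) + 1) ≤ 1 * (wbox (2 * r) h).card := by
        rw [← hk]; exact h1
      rw [one_mul] at h3
      rw [hW]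
      exact_mod_cast h3
    rw [← div_eq_mul_inv, le_div_iff₀ (by positivity)]
    refine le_trans ?_ h2
    have h3 : 0 ≤ (S1.card : ℝ) := by positivity
    have h4 : 0 < (h : ℝ) ^ (r + 1) := by positivity
    apply mul_le_mul_of_nonneg_left _ h3
    linarith
  have b2 : (S2.card : ℝ) ≤ W * (3 * D * R * ((h : ℝ) ^ (2 * r))⁻¹) := by
    set i₀ : Fin (2 * r) := ⟨0, by omega⟩ with hi₀
    have h1 := fibre (fun i : Fin (2 * r) => h ^ (2 * r - (i : ℕ))) S2 (Finset.filter_subset _ _) i₀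
      ⌊2 * (R * D) + 1⌋₊ (by
      intro a _
      apply Nat.le_floor
      set F := S2.filter (fun b => ∀ i, i ≠ i₀ → b i = a i) with hF
      rcases F.eq_empty_or_nonempty with he | ⟨b₀, hb₀⟩
      · rw [he, card_empty, Nat.cast_zero]
        positivity
      have hinj : Set.InjOn (fun b : Fin (2 * r) → ℤ => b i₀) (F : Set (Fin (2 * r) → ℤ)) := by
        intro b hb c hc hbc
        rw [Finset.mem_coe, hF, mem_filter] at hb hc
        funext i
        by_cases hi : i = i₀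
        · rw [hi]; exact hbc
        · rw [hb.2 i hi, hc.2 i hi]
      rw [← Finset.card_image_of_injOn hinj]
      rw [hF, mem_filter, hS2, mem_filter] at hb₀
      obtain ⟨⟨hb0, hlam0, hbe0⟩, hfib0⟩ := hb₀
      have hbe1 := hden b₀ hbe0
      have hbe2 : (be r b₀ 1 : ℝ) ≠ 0 := by exact_mod_cast hbe0
      have hbe3 : 0 < |(be r b₀ 1 : ℝ)| := abs_pos.2 hbe2
      refine card_near (F.image (fun b : Fin (2 * r) → ℤ => b i₀))
        ((b₀ i₀ : ℝ) - (lamb r b₀ 1 : ℝ) / (be r b₀ 1 : ℝ)) (R * D) (by positivity) ?_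
      intro x hx
      rw [mem_image] at hx
      obtain ⟨b, hb, rfl⟩ := hx
      rw [hF, mem_filter, hS2, mem_filter] at hb
      have h3 := lamb_zero r hr b₀ b i₀ rfl (fun i hi => by rw [hb.2 i hi, hfib0 i hi])
      have h4 : (lamb r b 1 : ℝ) = (lamb r b₀ 1 : ℝ) + ((b i₀ : ℝ) - b₀ i₀) * (be r b₀ 1 : ℝ) := by
        have h7 := congrArg (fun q : ℚ => (q : ℝ)) h3
        push_cast at h7
        exact h7
      have h5 : (b i₀ : ℝ) - ((b₀ i₀ : ℝ) - (lamb r b₀ 1 : ℝ) / (be r b₀ 1 : ℝ)) =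
          (lamb r b 1 : ℝ) / (be r b₀ 1 : ℝ) := by
        rw [h4]
        field_simp
        ring
      rw [h5, abs_div, div_lt_iff₀ hbe3]
      calc |(lamb r b 1 : ℝ)| < R := hb.1.2.1
        _ = R * 1 := (mul_one R).symm
        _ ≤ R * (D * |(be r b₀ 1 : ℝ)|) := by gcongr
        _ = _ := by ring)
    have h2 : (S2.card : ℝ) * (2 * (h : ℝ) ^ (2 * r) + 1) ≤ (2 * (R * D) + 1) * W := by
      have h3 : S2.card * (2 * h ^ (2 * r) + 1) ≤ ⌊2 * (R * D) + 1⌋₊ * (wbox (2 * r) h).card := h1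
      have h4 : (S2.card : ℝ) * (2 * (h : ℝ) ^ (2 * r) + 1) ≤ (⌊2 * (R * D) + 1⌋₊ : ℝ) * W := by
        rw [hW]
        exact_mod_cast h3
      refine h4.trans ?_
      gcongr
      exact Nat.floor_le (by positivity)
    have h5 : W * (3 * D * R * ((h : ℝ) ^ (2 * r))⁻¹) = W * (3 * D * R) / (h : ℝ) ^ (2 * r) := by
      rw [div_eq_mul_inv]; ring
    rw [h5, le_div_iff₀ (by positivity)]
    have h3 : 0 ≤ (S2.card : ℝ) := by positivity
    have h4 : 0 < (h : ℝ) ^ (2 * r) := by positivity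
    have h6 : 1 ≤ R * D := by nlinarith
    calc (S2.card : ℝ) * (h : ℝ) ^ (2 * r) ≤ (S2.card : ℝ) * (2 * (h : ℝ) ^ (2 * r) + 1) := by
          apply mul_le_mul_of_nonneg_left _ h3
          linarith
      _ ≤ (2 * (R * D) + 1) * W := h2
      _ ≤ (3 * (R * D)) * W := by
          apply mul_le_mul_of_nonneg_right _ hW0
          linarith
      _ = _ := by ring
  have h1 := (Finset.card_le_card hsub).trans (Finset.card_union_le _ _)
  have h2 : (((wbox (2 * r) h).filter (fun a => |(lamb r a 1 : ℝ)| < R)).card : ℝ) ≤ (S1.card : ℝ) + (S2.card : ℝ) := by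
    exact_mod_cast h1
  rw [← hW, mul_add]
  linarith

/-- **Large arguments.** -/
theorem largeB (r : ℕ) (hr : 3 ≤ r) (A : ℕ) : ∃ C₀ C₁ : ℕ, 1 ≤ C₀ ∧ 1 ≤ C₁ ∧ ∀ h : ℕ, 1 ≤ h →
    ∀ a : Fin (2 * r) → ℤ, InBox h a → (C₀ : ℝ) * h ≤ |(lamb r a 1 : ℝ)| →
    ∀ n : ℤ, (C₁ : ℝ) * (h : ℝ) ^ (3 * r + 1) ≤ |(n : ℝ)| → ¬ Exc A (mv a n) := by
  obtain ⟨c₀, hc₀, hall⟩ := hallM r hr A
  obtain ⟨B, hB, hlam⟩ := lamb_le r hr
  have hr1 : (1 : ℝ) ≤ r := by exact_mod_cast (by omega : 1 ≤ r)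
  have hrB : 1 ≤ (r : ℝ) * B := by nlinarith
  obtain ⟨C₀, hC₀⟩ := exists_nat_ge (2 * (r * B) + 2 * c₀)
  obtain ⟨C₁, hC₁⟩ := exists_nat_ge (c₀ * (r * B) + c₀)
  have hC01 : (1 : ℝ) ≤ C₀ := by nlinarith
  have hC11 : (1 : ℝ) ≤ C₁ := by nlinarith
  refine ⟨C₀, C₁, by exact_mod_cast hC01, by exact_mod_cast hC11, ?_⟩
  intro h hh a ha hlam1 n hn
  have hh1 : (1 : ℝ) ≤ h := by exact_mod_cast hh
  obtain ⟨m, hm⟩ : ∃ m : ℝ, m = |(n : ℝ)| := ⟨_, rfl⟩
  rw [← hm] at hn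
  have hpw1 : (1 : ℝ) ≤ (h : ℝ) ^ (3 * r + 1) := one_le_pow₀ hh1
  have hhpw : (h : ℝ) ≤ (h : ℝ) ^ (3 * r + 1) := le_self_pow₀ hh1 (by omega)
  have hm1 : (h : ℝ) ≤ m := by
    refine le_trans ?_ hn
    refine hhpw.trans ?_
    exact le_mul_of_one_le_left (by positivity) hC11
  have hm11 : 1 ≤ m := hh1.trans hm1
  have hm0 : 0 < m := by linarith
  obtain ⟨e, he⟩ : ∃ e : ℝ, e = m ^ (r - 3) := ⟨_, rfl⟩
  have he1 : 1 ≤ e := by rw [he]; exact one_le_pow₀ hm11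
  have hme : m ^ (r - 2) = m * e := by
    rw [he, ← pow_succ']; congr 1; omega
  -- the terms
  have hterm : ∀ i ∈ Icc 1 (r - 2), |(lamb r a i : ℝ) * (n : ℝ) ^ (r - 2 - i)| ≤ B * (h : ℝ) ^ (3 * r + 1) * e := by
    intro i hi
    rw [mem_Icc] at hi
    rw [abs_mul, abs_pow, ← hm]
    have e1 : (h : ℝ) ^ (3 * r + i) = (h : ℝ) ^ (3 * r + 1) * (h : ℝ) ^ (i - 1) := by
      rw [← pow_add]; congr 1; omega
    have e2 : e = m ^ (i - 1) * m ^ (r - 2 - i) := by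
      rw [he, ← pow_add]; congr 1; omega
    calc |(lamb r a i : ℝ)| * m ^ (r - 2 - i) ≤ (B * (h : ℝ) ^ (3 * r + i)) * m ^ (r - 2 - i) := by
          gcongr
          exact hlam h a ha i hi.2
      _ = B * (h : ℝ) ^ (3 * r + 1) * ((h : ℝ) ^ (i - 1) * m ^ (r - 2 - i)) := by rw [e1]; ring
      _ ≤ B * (h : ℝ) ^ (3 * r + 1) * (m ^ (i - 1) * m ^ (r - 2 - i)) := by gcongr
      _ = _ := by rw [e2]
  have hup : |Qv r a n| ≤ r * (B * (h : ℝ) ^ (3 * r + 1) * e) := by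
    unfold Qv
    refine (Finset.abs_sum_le_sum_abs _ _).trans ?_
    refine (Finset.sum_le_card_nsmul _ _ _ hterm).trans ?_
    rw [Nat.card_Icc, nsmul_eq_mul]
    have h3 : ((r - 2 + 1 - 1 : ℕ) : ℝ) ≤ r := by exact_mod_cast (by omega : r - 2 + 1 - 1 ≤ r)
    gcongr
  have hterm2 : ∀ i ∈ (Icc 1 (r - 2)).erase 1, |(lamb r a i : ℝ) * (n : ℝ) ^ (r - 2 - i)| ≤
      B * (h * e) := by
    intro i hi
    rw [mem_erase, mem_Icc] at hi
    obtain ⟨hi1, hi2, hi3⟩ := hi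
    have hi4 : 2 ≤ i := by omega
    rw [abs_mul, abs_pow, ← hm]
    have e1 : (h : ℝ) ^ (3 * r + i) = (h : ℝ) ^ (3 * r + 1) * h * (h : ℝ) ^ (i - 2) := by
      rw [← pow_succ, ← pow_add]; congr 1; omega
    have e2 : e = m * (m ^ (i - 2) * m ^ (r - 2 - i)) := by
      rw [he, ← pow_add, ← pow_succ']; congr 1; omega
    have e3 : (h : ℝ) ^ (3 * r + 1) ≤ m := by
      refine le_trans ?_ hn
      exact le_mul_of_one_le_left (by positivity) hC11
    calc |(lamb r a i : ℝ)| * m ^ (r - 2 - i) ≤ (B * (h : ℝ) ^ (3 * r + i)) * m ^ (r - 2 - i) := by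
          gcongr
          exact hlam h a ha i hi3
      _ = B * (h * (h : ℝ) ^ (3 * r + 1)) * ((h : ℝ) ^ (i - 2) * m ^ (r - 2 - i)) := by rw [e1]; ring
      _ ≤ B * (h * m) * (m ^ (i - 2) * m ^ (r - 2 - i)) := by gcongr
      _ = B * (h * e) := by rw [e2]; ring
  have hmem : 1 ∈ Icc 1 (r - 2) := by rw [mem_Icc]; omega
  have hsum : Qv r a n = (lamb r a 1 : ℝ) * (n : ℝ) ^ (r - 2 - 1) +
      ∑ i ∈ (Icc 1 (r - 2)).erase 1, (lamb r a i : ℝ) * (n : ℝ) ^ (r - 2 - i) := by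
    unfold Qv
    rw [Finset.add_sum_erase _ (fun i => (lamb r a i : ℝ) * (n : ℝ) ^ (r - 2 - i)) hmem]
  have hrest : |∑ i ∈ (Icc 1 (r - 2)).erase 1, (lamb r a i : ℝ) * (n : ℝ) ^ (r - 2 - i)| ≤ r * (B * (h * e)) := by
    refine (Finset.abs_sum_le_sum_abs _ _).trans ?_
    refine (Finset.sum_le_card_nsmul _ _ _ hterm2).trans ?_
    rw [nsmul_eq_mul]
    have h3 : (((Icc 1 (r - 2)).erase 1).card : ℝ) ≤ r := by
      have h4 := Finset.card_erase_le (s := Icc 1 (r - 2)) (a := 1)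
      rw [Nat.card_Icc] at h4
      exact_mod_cast (by omega : ((Icc 1 (r - 2)).erase 1).card ≤ r)
    gcongr
  have hlow : c₀ * (h * e) ≤ |Qv r a n| := by
    have h6 := abs_sub_abs_le_abs_sub ((lamb r a 1 : ℝ) * (n : ℝ) ^ (r - 2 - 1))
      (-(∑ i ∈ (Icc 1 (r - 2)).erase 1, (lamb r a i : ℝ) * (n : ℝ) ^ (r - 2 - i)))
    rw [sub_neg_eq_add, abs_neg, ← hsum] at h6
    have h7 : (C₀ : ℝ) * h * e ≤ |(lamb r a 1 : ℝ) * (n : ℝ) ^ (r - 2 - 1)| := by
      rw [abs_mul, abs_pow, ← hm]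
      have h8 : m ^ (r - 2 - 1) = e := by rw [he]; congr 1
      rw [h8]
      gcongr
    have h8 : 0 ≤ (h : ℝ) * e := by positivity
    have h9 : (2 * (r * B) + 2 * c₀) * (h * e) ≤ C₀ * h * e := by
      rw [mul_assoc]
      gcongr
    have h10 : 0 ≤ (r * B) * (h * e) := by positivity
    have h11 : 0 ≤ c₀ * (h * e) := by positivity
    nlinarith
  refine hall h hh a ha n ?_ ?_ ?_
  · rw [← hm]
    refine le_trans ?_ hn
    have : c₀ ≤ (C₁ : ℝ) := by nlinarith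
    gcongr
  · rw [← hm, hme]
    calc c₀ * |Qv r a n| ≤ c₀ * (r * (B * (h : ℝ) ^ (3 * r + 1) * e)) := by gcongr
      _ = ((c₀ * (r * B)) * (h : ℝ) ^ (3 * r + 1)) * e := by ring
      _ ≤ (C₁ * (h : ℝ) ^ (3 * r + 1)) * e := by
          gcongr
          linarith
      _ ≤ m * e := by gcongr
  · rw [← hm]
    have h12 : (h : ℝ) ^ (4 * r - 1) ≤ h * (m * e) := by
      rw [← hme]
      have h13 : (h : ℝ) ^ (3 * r + 1) ≤ m := by
        refine le_trans ?_ hn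
        exact le_mul_of_one_le_left (by positivity) hC11
      calc (h : ℝ) ^ (4 * r - 1) ≤ (h : ℝ) ^ ((3 * r + 1) * (r - 2) + 1) := by
            apply pow_le_pow_right₀ hh1
            obtain ⟨r', rfl⟩ : ∃ r', r = r' + 3 := ⟨r - 3, by omega⟩
            have h14 : r' + 3 - 2 = r' + 1 := by omega
            have h15 : 4 * (r' + 3) - 1 = 4 * r' + 11 := by omega
            rw [h14, h15]
            nlinarith
        _ = h * ((h : ℝ) ^ (3 * r + 1)) ^ (r - 2) := by rw [pow_succ', pow_mul]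
        _ ≤ h * m ^ (r - 2) := by gcongr
    calc c₀ * (h : ℝ) ^ (4 * r - 1) ≤ c₀ * (h * (m * e)) := by gcongr
      _ = (c₀ * (h * e)) * m := by ring
      _ ≤ |Qv r a n| * m := by gcongr

/-- **The count of the polynomials with an exceptional value.** -/
theorem finalB (r : ℕ) (hr : 3 ≤ r) (A : ℕ) : ∃ K : ℝ, 0 < K ∧ ∀ h : ℕ, 1 ≤ h →
    (((wbox (2 * r) h).filter (fun a => ∃ n : ℤ, Exc A (mv a n))).card : ℝ) ≤
      (wbox (2 * r) h).card * (K * (Real.sqrt h ^ (r - 2))⁻¹) := by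
  obtain ⟨C₀, C₁, hC₀, hC₁, hlarge⟩ := largeB r hr A
  obtain ⟨K₁, hK₁, hsmall⟩ := small_total r hr A (8 * r) (by omega)
  obtain ⟨K₂, hK₂, hmid⟩ := mid_total r hr A C₁ hC₁
  obtain ⟨D, hD, hfew⟩ := fewL r hr
  have hC0r : (1 : ℝ) ≤ C₀ := by exact_mod_cast hC₀
  refine ⟨K₁ + K₂ + (1 + D * C₀), by positivity, ?_⟩
  intro h hh
  have hhr : (1 : ℝ) ≤ h := by exact_mod_cast hh
  obtain ⟨t, ht⟩ : ∃ t : ℝ, t = Real.sqrt h := ⟨_, rfl⟩
  have ht2 : t ^ 2 = h := by rw [ht]; exact Real.sq_sqrt (by linarith)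
  have ht1 : 1 ≤ t := by rw [ht]; exact Real.one_le_sqrt.2 hhr
  have ht0 : 0 < t := by linarith
  have h1 := hsmall h hh
  have h2 := hmid h hh
  have h3 := hfew h hh (C₀ * h) (by nlinarith)
  obtain ⟨W, hW⟩ : ∃ W : ℝ, W = ((wbox (2 * r) h).card : ℝ) := ⟨_, rfl⟩
  have hW0 : 0 ≤ W := by rw [hW]; positivity
  rw [← hW] at h1 h2 h3 ⊢
  rw [← ht] at h1 h2 ⊢
  set S1 := (wbox (2 * r) h).filter (fun a => ∃ n : ℤ, |n| ≤ ((8 * r * h : ℕ) : ℤ) ∧ Exc A (mv a n)) with hS1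
  set S2 := (wbox (2 * r) h).filter (fun a => ∃ n : ℤ, ((8 * r * h : ℕ) : ℤ) ≤ |n| ∧
      |n| ≤ ((C₁ * h ^ (3 * r + 1) : ℕ) : ℤ) ∧ Exc A (mv a n)) with hS2
  set S3 := (wbox (2 * r) h).filter (fun a => |(lamb r a 1 : ℝ)| < C₀ * h) with hS3
  have hsub : (wbox (2 * r) h).filter (fun a => ∃ n : ℤ, Exc A (mv a n)) ⊆ S1 ∪ (S2 ∪ S3) := by
    intro a ha
    rw [mem_filter] at ha
    obtain ⟨ha1, n, hE⟩ := ha
    rw [mem_union, mem_union]
    by_cases c3 : |(lamb r a 1 : ℝ)| < C₀ * h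
    · right; right
      rw [hS3, mem_filter]
      exact ⟨ha1, c3⟩
    rw [not_lt] at c3
    rcases le_total |n| ((8 * r * h : ℕ) : ℤ) with h4 | h4
    · left
      rw [hS1, mem_filter]
      exact ⟨ha1, n, h4, hE⟩
    rcases le_total |n| ((C₁ * h ^ (3 * r + 1) : ℕ) : ℤ) with h5 | h5
    · right; left
      rw [hS2, mem_filter]
      exact ⟨ha1, n, h4, h5, hE⟩
    · exfalso
      have h6 : (C₁ : ℝ) * (h : ℝ) ^ (3 * r + 1) ≤ |(n : ℝ)| := by exact_mod_cast h5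
      exact hlarge h hh a (mem_wbox.1 ha1) c3 n h6 hE
  have h4 := (Finset.card_le_card hsub).trans ((Finset.card_union_le _ _).trans
    (Nat.add_le_add_left (Finset.card_union_le _ _) _))
  have h5 : (((wbox (2 * r) h).filter (fun a => ∃ n : ℤ, Exc A (mv a n))).card : ℝ) ≤
      (S1.card : ℝ) + ((S2.card : ℝ) + (S3.card : ℝ)) := by exact_mod_cast h4
  have hTr : 0 < t ^ (r - 2) := by positivity
  have e1 : ((h : ℝ) ^ (r + 1))⁻¹ ≤ (t ^ (r - 2))⁻¹ := by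
    rw [inv_le_inv₀ (by positivity) hTr, ← ht2, ← pow_mul]
    exact pow_le_pow_right₀ ht1 (by omega)
  have e2 : (h : ℝ) * ((h : ℝ) ^ (2 * r))⁻¹ ≤ (t ^ (r - 2))⁻¹ := by
    refine inv_aux (by positivity) hTr ?_
    rw [← ht2, ← pow_mul, ← pow_add]
    exact pow_le_pow_right₀ ht1 (by omega)
  have h6 : (S3.card : ℝ) ≤ W * ((1 + D * C₀) * (t ^ (r - 2))⁻¹) := by
    refine h3.trans ?_
    apply mul_le_mul_of_nonneg_left _ hW0
    calc ((h : ℝ) ^ (r + 1))⁻¹ + D * (C₀ * h) * ((h : ℝ) ^ (2 * r))⁻¹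
        = ((h : ℝ) ^ (r + 1))⁻¹ + (D * C₀) * (h * ((h : ℝ) ^ (2 * r))⁻¹) := by ring
      _ ≤ (t ^ (r - 2))⁻¹ + (D * C₀) * (t ^ (r - 2))⁻¹ := by gcongr
      _ = _ := by ring
  calc _ ≤ _ := h5
    _ ≤ W * (K₁ * (t ^ (r - 2))⁻¹) + (W * (K₂ * (t ^ (r - 2))⁻¹) + W * ((1 + D * C₀) * (t ^ (r - 2))⁻¹)) := by
        linarith
    _ = _ := by ring

end T9h23.Ac
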